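import Mathlib
import Pool.Agent.Y164.NZ.StmT

set_option autoImplicit false
set_option linter.all false

/-! # Project NZ: embeddings in Laurent series and their automorphisms -/

open Polynomial

namespace Pool.Agent.Y447.NZ

open Pool.Agent.Y164.NZ

/-- the coefficientwise automorphism -/
noncomputable def sL {κ : Type} [Field κ] (s : κ ≃+* κ) :
    LaurentSeries κ ≃+* LaurentSeries κ where
  toFun x := HahnSeries.map x s
  invFun x := HahnSeries.map x s.symm
  left_inv x := by
    ext i
    simp
  right_inv x := by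
    ext i
    simp
  map_mul' x y := HahnSeries.map_mul (s : κ →ₙ+* κ)
  map_add' x y := by
    ext i
    simp

theorem sL_coeff {κ : Type} [Field κ] (s : κ ≃+* κ) (x : LaurentSeries κ) (i : ℤ) :
    (sL s x).coeff i = s (x.coeff i) := rfl

theorem sL_C {κ : Type} [Field κ] (s : κ ≃+* κ) (c : κ) :
    sL s (HahnSeries.C c) = HahnSeries.C (s c) := by
  ext i
  rw [sL_coeff, HahnSeries.C_apply, HahnSeries.C_apply, HahnSeries.coeff_single,
    HahnSeries.coeff_single]
  split_ifs
  · rfl
  · exact map_zero s

theorem sL_T {κ : Type} [Field κ] (s : κ ≃+* κ) :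
    sL s (HahnSeries.single 1 1) = HahnSeries.single 1 1 := by
  ext i
  rw [sL_coeff, HahnSeries.coeff_single]
  split_ifs
  · exact map_one s
  · exact map_zero s

theorem ex_C {κ : Type} [Field κ] (θ c : κ) : ex θ (C c) = HahnSeries.C c := by
  unfold ex
  rw [coe_eval₂RingHom, eval₂_C]

theorem ex_X {κ : Type} [Field κ] (θ : κ) :
    ex θ X = HahnSeries.C θ + HahnSeries.single 1 1 := by
  unfold ex
  rw [coe_eval₂RingHom, eval₂_X]

theorem ex_inj {κ : Type} [Field κ] (θ : κ) : Function.Injective (ex θ) := by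
  have h : ex θ = ((HahnSeries.ofPowerSeries ℤ κ).comp
      (Polynomial.coeToPowerSeries.ringHom)).comp ((taylorEquiv θ : κ[X] →+* κ[X])) := by
    apply Polynomial.ringHom_ext
    · intro a
      rw [ex_C]
      simp [taylorEquiv, HahnSeries.ofPowerSeries_C]
    · rw [ex_X]
      simp [taylorEquiv, HahnSeries.ofPowerSeries_C, HahnSeries.ofPowerSeries_X, add_comm]
  rw [h]
  intro p q hpq
  have h1 := HahnSeries.ofPowerSeries_injective hpq
  have h2 := Polynomial.coe_injective κ h1
  exact (taylorEquiv θ).injective h2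

theorem restr {K L Ω : Type} [Field K] [Field L] [Field Ω] [Algebra K L] [Algebra K Ω]
    [Normal K L] (ι : L →ₐ[K] Ω) (τ : Ω ≃ₐ[K] Ω) : ∃ σ : L ≃ₐ[K] L, ∀ x, τ (ι x) = ι (σ x) := by
  letI : Algebra L Ω := ι.toRingHom.toAlgebra
  haveI : IsScalarTower K L Ω := IsScalarTower.of_algebraMap_eq fun x => (ι.commutes x).symm
  exact ⟨τ.restrictNormal L, fun x => (AlgEquiv.restrictNormal_commutes τ L x).symm⟩

theorem t : S_LDE := by
  intro k k' K F Ω _ _ _ _ _ _ _ _ _ _ _ _ _ _ _ _ _ _ _ _ hKF θ
  -- the expansion on the field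
  let j : F →+* LaurentSeries k' := IsFractionRing.lift (ex_inj θ)
  have hj : ∀ p : k'[X], j (algebraMap k'[X] F p) = ex θ p := fun p =>
    IsFractionRing.lift_algebraMap (ex_inj θ) p
  -- the embedding
  obtain ⟨ι, hι⟩ : ∃ ι : Ω →+* AlgebraicClosure (LaurentSeries k'), ∀ x : F,
      ι (algebraMap F Ω x) =
        algebraMap (LaurentSeries k') (AlgebraicClosure (LaurentSeries k')) (j x) := by
    letI : Algebra F (AlgebraicClosure (LaurentSeries k')) :=
      ((algebraMap (LaurentSeries k') (AlgebraicClosure (LaurentSeries k'))).comp j).toAlgebra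
    haveI : Algebra.IsAlgebraic F Ω := inferInstance
    let φ : Ω →ₐ[F] AlgebraicClosure (LaurentSeries k') := IsAlgClosed.lift
    exact ⟨φ.toRingHom, fun x => φ.commutes x⟩
  refine ⟨⟨ι, fun p => by rw [hι, hj]⟩, fun s hs => ?_⟩
  -- the automorphism
  let S : AlgebraicClosure (LaurentSeries k') ≃+* AlgebraicClosure (LaurentSeries k') :=
    IsAlgClosure.equivOfEquiv (AlgebraicClosure (LaurentSeries k'))
      (AlgebraicClosure (LaurentSeries k')) (sL s.toRingEquiv)
  have hS : ∀ x : LaurentSeries k',
      S (algebraMap (LaurentSeries k') (AlgebraicClosure (LaurentSeries k')) x) =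
        algebraMap (LaurentSeries k') (AlgebraicClosure (LaurentSeries k'))
          (sL s.toRingEquiv x) := fun x =>
    IsAlgClosure.equivOfEquiv_algebraMap _ _ (sL s.toRingEquiv) x
  have h1 : ∀ p : k[X], sL s.toRingEquiv (ex θ (p.map (algebraMap k k'))) =
      ex θ (p.map (algebraMap k k')) := by
    have h2 : ((sL s.toRingEquiv : LaurentSeries k' →+* LaurentSeries k').comp (ex θ)).comp
        (mapRingHom (algebraMap k k')) = (ex θ).comp (mapRingHom (algebraMap k k')) := by
      apply Polynomial.ringHom_ext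
      · intro a
        change sL s.toRingEquiv (ex θ (Polynomial.map (algebraMap k k') (C a))) =
          ex θ (Polynomial.map (algebraMap k k') (C a))
        rw [Polynomial.map_C, ex_C, sL_C]
        congr 1
        exact s.commutes a
      · change sL s.toRingEquiv (ex θ (Polynomial.map (algebraMap k k') X)) =
          ex θ (Polynomial.map (algebraMap k k') X)
        rw [Polynomial.map_X, ex_X, map_add, sL_C, sL_T]
        congr 2
    intro p
    exact congrArg (fun f : k[X] →+* LaurentSeries k' => f p) h2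
  have h3 : ∀ x : K, S (ι (algebraMap K Ω x)) = ι (algebraMap K Ω x) := by
    have h4 : ((S : AlgebraicClosure (LaurentSeries k') →+*
        AlgebraicClosure (LaurentSeries k')).comp (ι.comp (algebraMap K Ω))) =
        ι.comp (algebraMap K Ω) := by
      apply IsLocalization.ringHom_ext (nonZeroDivisors k[X])
      refine RingHom.ext fun p => ?_
      change S (ι (algebraMap K Ω (algebraMap k[X] K p))) =
        ι (algebraMap K Ω (algebraMap k[X] K p))
      rw [IsScalarTower.algebraMap_apply K F Ω, hKF, hι, hj, hS, h1]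
    intro x
    exact congrArg (fun f : K →+* AlgebraicClosure (LaurentSeries k') => f x) h4
  letI : Algebra K (AlgebraicClosure (LaurentSeries k')) := (ι.comp (algebraMap K Ω)).toAlgebra
  let ιK : Ω →ₐ[K] AlgebraicClosure (LaurentSeries k') :=
    { ι with commutes' := fun x => rfl }
  let SK : AlgebraicClosure (LaurentSeries k') ≃ₐ[K] AlgebraicClosure (LaurentSeries k') :=
    AlgEquiv.ofRingEquiv (f := S) (fun x => h3 x)
  haveI : Normal K Ω := inferInstance
  obtain ⟨τ, hτ⟩ := restr ιK SK
  refine ⟨τ, S, fun x y hxy => ?_, fun w => hτ w⟩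
  rw [hS]
  congr 1
  ext i
  rw [sL_coeff, hxy i]
  rfl

end Pool.Agent.Y447.NZ
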